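import Mathlib

set_option autoImplicit false

/-!
# Forms `s_i + sum_l t_(i,l) x_l^(d_i)`: general position and the place `t = 0`
(PI, frozen side, chapter F1)
-/

namespace Pool.Agent.PI.F1

open MvPolynomial

noncomputable section

/-! ## The field and its derivations -/

section Deriv

variable (κ : Type) [Field κ] [CharZero κ] (σ : Type)

/-- the field `k`: an algebraic closure of the field of rational functions over `κ` in the
variables `σ` -/
abbrev GK : Type := AlgebraicClosure (FractionRing (MvPolynomial σ κ))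

instance charZeroFrac : CharZero (FractionRing (MvPolynomial σ κ)) :=
  charZero_of_injective_algebraMap
    (IsFractionRing.injective (MvPolynomial σ κ) (FractionRing (MvPolynomial σ κ)))

instance charZeroGK : CharZero (GK κ σ) :=
  charZero_of_injective_algebraMap
    (algebraMap (FractionRing (MvPolynomial σ κ)) (GK κ σ)).injective

/-- the parameters -/
def tt (s : σ) : GK κ σ := algebraMap (MvPolynomial σ κ) (GK κ σ) (X s)

instance formallyEtaleGK : Algebra.FormallyEtale (MvPolynomial σ κ) (GK κ σ) := by
  haveI : Algebra.FormallyEtale (MvPolynomial σ κ) (FractionRing (MvPolynomial σ κ)) :=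
    Algebra.FormallyEtale.of_isLocalization (nonZeroDivisors (MvPolynomial σ κ))
  haveI : Algebra.FormallyEtale (FractionRing (MvPolynomial σ κ)) (GK κ σ) :=
    Algebra.FormallyEtale.of_isSeparable _ _
  exact Algebra.FormallyEtale.comp (MvPolynomial σ κ) (FractionRing (MvPolynomial σ κ)) (GK κ σ)

/-- every function `σ → k` comes from a `κ`-derivation of `k` -/
theorem exists_derivation (g : σ → GK κ σ) :
    ∃ D : Derivation κ (GK κ σ) (GK κ σ), ∀ s : σ, D (tt κ σ s) = g s := by
  classical
  let D0 : Derivation κ (MvPolynomial σ κ) (GK κ σ) := MvPolynomial.mkDerivation κ g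
  let L0 : Ω[MvPolynomial σ κ⁄κ] →ₗ[MvPolynomial σ κ] GK κ σ := D0.liftKaehlerDifferential
  let L1 : TensorProduct (MvPolynomial σ κ) (GK κ σ) (Ω[MvPolynomial σ κ⁄κ]) →ₗ[GK κ σ] GK κ σ :=
    LinearMap.liftBaseChange (GK κ σ) L0
  let e := KaehlerDifferential.tensorKaehlerEquivOfFormallyEtale κ (MvPolynomial σ κ) (GK κ σ)
  let L2 : Ω[GK κ σ⁄κ] →ₗ[GK κ σ] GK κ σ := L1 ∘ₗ e.symm.toLinearMap
  refine ⟨L2.compDer (KaehlerDifferential.D κ (GK κ σ)), fun s => ?_⟩
  have h1 := KaehlerDifferential.tensorKaehlerEquivOfFormallyEtale_symm_D_algebraMap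
    κ (MvPolynomial σ κ) (GK κ σ) (X s)
  change L1 (e.symm (KaehlerDifferential.D κ (GK κ σ) (algebraMap _ _ (X s)))) = g s
  rw [h1]
  simp [L1, L0, D0]

end Deriv

/-! ## The chain rule -/

section Chain

variable {κ k : Type} [Field κ] [Field k] [Algebra κ k] {n : ℕ}

/-- the part of `D (p(P))` coming from the coefficients -/
def coefPart (D : Derivation κ k k) (P : Fin n → k) (p : MvPolynomial (Fin n) k) : k :=
  D (eval P p) - ∑ l, eval P (pderiv l p) * D (P l)

theorem coefPart_add (D : Derivation κ k k) (P : Fin n → k) (p q : MvPolynomial (Fin n) k) :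
    coefPart D P (p + q) = coefPart D P p + coefPart D P q := by
  simp only [coefPart, map_add, add_mul, Finset.sum_add_distrib]
  ring

theorem coefPart_mul (D : Derivation κ k k) (P : Fin n → k) (p q : MvPolynomial (Fin n) k) :
    coefPart D P (p * q) = eval P p * coefPart D P q + eval P q * coefPart D P p := by
  have h1 : ∑ l, eval P (pderiv l (p * q)) * D (P l)
      = eval P p * ∑ l, eval P (pderiv l q) * D (P l)
        + eval P q * ∑ l, eval P (pderiv l p) * D (P l) := by
    rw [Finset.mul_sum, Finset.mul_sum, ← Finset.sum_add_distrib]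
    refine Finset.sum_congr rfl fun l _ => ?_
    rw [pderiv_mul]
    simp only [map_add, map_mul]
    ring
  simp only [coefPart, map_mul, Derivation.leibniz, smul_eq_mul] at h1 ⊢
  rw [h1]
  ring

theorem coefPart_C (D : Derivation κ k k) (P : Fin n → k) (c : k) :
    coefPart D P (C c) = D c := by
  simp [coefPart]

theorem coefPart_X (D : Derivation κ k k) (P : Fin n → k) (l : Fin n) :
    coefPart D P (X l) = 0 := by
  classical
  simp only [coefPart, eval_X, pderiv_X]
  rw [Finset.sum_eq_single l]
  · simp
  · intro b _ hb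
    rw [Pi.single_eq_of_ne (Ne.symm hb)]
    simp
  · simp

theorem coefPart_X_pow (D : Derivation κ k k) (P : Fin n → k) (l : Fin n) (m : ℕ) :
    coefPart D P (X l ^ m) = 0 := by
  induction m with
  | zero =>
    rw [pow_zero, ← C_1, coefPart_C]
    simp
  | succ m ih => rw [pow_succ, coefPart_mul, ih, coefPart_X]; simp

theorem coefPart_sum {α : Type} (s : Finset α) (D : Derivation κ k k) (P : Fin n → k)
    (p : α → MvPolynomial (Fin n) k) :
    coefPart D P (∑ a ∈ s, p a) = ∑ a ∈ s, coefPart D P (p a) := by
  classical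
  induction s using Finset.induction_on with
  | empty =>
    have : (0 : MvPolynomial (Fin n) k) = C 0 := by simp
    rw [Finset.sum_empty, Finset.sum_empty, this, coefPart_C]; simp
  | insert a s ha ih => rw [Finset.sum_insert ha, Finset.sum_insert ha, coefPart_add, ih]

theorem coefPart_map (D : Derivation κ k k) (P : Fin n → k) (p : MvPolynomial (Fin n) κ) :
    coefPart D P (map (algebraMap κ k) p) = 0 := by
  induction p using MvPolynomial.induction_on with
  | C a => rw [map_C, coefPart_C]; simp
  | add p q hp hq => rw [map_add, coefPart_add, hp, hq, add_zero]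
  | mul_X p l hp => rw [map_mul, map_X, coefPart_mul, hp, coefPart_X]; simp

end Chain

/-! ## General position -/

section GP

variable {κ k : Type} [Field κ] [Field k] [Algebra κ k] {n : ℕ} {ι L : Type}

/-- the polynomials `s_i + sum_l t_(i,l) q_(i,l)`, with `s_i`, `q_(i,l)` over `κ` -/
def gpoly [Fintype L] (s : ι → MvPolynomial (Fin n) κ) (q : ι → L → MvPolynomial (Fin n) κ)
    (t : ι → L → k) (i : ι) : MvPolynomial (Fin n) k :=
  map (algebraMap κ k) (s i) + ∑ l, C (t i l) * map (algebraMap κ k) (q i l)

theorem coefPart_gpoly [Fintype L] (s : ι → MvPolynomial (Fin n) κ)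
    (q : ι → L → MvPolynomial (Fin n) κ) (t : ι → L → k)
    (D : Derivation κ k k) (P : Fin n → k) (i : ι) :
    coefPart D P (gpoly s q t i)
      = ∑ l, D (t i l) * eval P (map (algebraMap κ k) (q i l)) := by
  rw [gpoly, coefPart_add, coefPart_map, zero_add, coefPart_sum]
  refine Finset.sum_congr rfl fun l _ => ?_
  rw [coefPart_mul, coefPart_map, coefPart_C]
  simp [mul_comm]

/-- GENERAL POSITION (general form): if the `t_(i,l)` have independent derivations and if for
every `i` some `q_(i,l)` does not vanish at `P`, then the gradients at `P` of the polynomials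
which vanish at `P` are linearly independent. -/
theorem gpoly_gp [Fintype ι] [Fintype L] (s : ι → MvPolynomial (Fin n) κ)
    (q : ι → L → MvPolynomial (Fin n) κ) (t : ι → L → k)
    (ht : ∀ g : ι → L → k, ∃ D : Derivation κ k k, ∀ i l, D (t i l) = g i l)
    (P : Fin n → k) (hP : ∀ i, ∃ l, eval P (map (algebraMap κ k) (q i l)) ≠ 0) :
    LinearIndependent k
      (fun i : {i : ι // eval P (gpoly s q t i) = 0} =>
        fun l : Fin n => eval P (pderiv l (gpoly s q t i.1))) := by
  classical
  rw [Fintype.linearIndependent_iff]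
  intro g hg i0
  obtain ⟨l0, hl0⟩ := hP i0.1
  obtain ⟨D, hD⟩ := ht (fun i l => if i = i0.1 ∧ l = l0 then 1 else 0)
  have key : ∀ i : {i : ι // eval P (gpoly s q t i) = 0},
      ∑ l, eval P (pderiv l (gpoly s q t i.1)) * D (P l)
        = - (if i = i0 then eval P (map (algebraMap κ k) (q i0.1 l0)) else 0) := by
    intro i
    have h1 := coefPart_gpoly s q t D P i.1
    have h2 : coefPart D P (gpoly s q t i.1)
        = - ∑ l, eval P (pderiv l (gpoly s q t i.1)) * D (P l) := by
      rw [coefPart, i.2]; simp
    rw [h2] at h1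
    rw [← neg_inj, neg_neg, h1]
    by_cases hi : i = i0
    · subst hi
      rw [if_pos rfl, Finset.sum_eq_single l0]
      · rw [hD, if_pos ⟨rfl, rfl⟩, one_mul]
      · intro m _ hm
        rw [hD, if_neg (fun h => hm h.2), zero_mul]
      · intro h
        exact absurd (Finset.mem_univ _) h
    · rw [if_neg hi]
      refine Finset.sum_eq_zero fun m _ => ?_
      rw [hD, if_neg (fun h => hi (Subtype.ext h.1)), zero_mul]
  have h3 : ∑ i, g i * ∑ l, eval P (pderiv l (gpoly s q t i.1)) * D (P l) = 0 := by
    have h4 : ∑ i, g i * ∑ l, eval P (pderiv l (gpoly s q t i.1)) * D (P l)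
        = ∑ l, (∑ i, g i • (fun l : Fin n => eval P (pderiv l (gpoly s q t i.1)))) l
          * D (P l) := by
      simp only [Finset.mul_sum, Finset.sum_apply, Pi.smul_apply, smul_eq_mul, Finset.sum_mul]
      rw [Finset.sum_comm]
      exact Finset.sum_congr rfl fun l _ => Finset.sum_congr rfl fun i _ => by ring
    rw [h4, hg]
    simp
  simp only [key] at h3
  rw [Finset.sum_eq_single i0] at h3
  · rw [if_pos rfl] at h3
    have h6 : g i0 * eval P (map (algebraMap κ k) (q i0.1 l0)) = 0 := by
      rw [mul_neg, neg_eq_zero] at h3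
      exact h3
    exact (mul_eq_zero.1 h6).resolve_right hl0
  · intro b _ hb
    rw [if_neg hb]; simp
  · simp

/-- the forms `s_i + sum_l t_(i,l) x_l^(d_i)` -/
def gform (d : ι → ℕ) (s : ι → MvPolynomial (Fin n) κ) (t : ι → Fin n → k) (i : ι) :
    MvPolynomial (Fin n) k :=
  map (algebraMap κ k) (s i) + ∑ l, C (t i l) * X l ^ d i

theorem gform_eq_gpoly (d : ι → ℕ) (s : ι → MvPolynomial (Fin n) κ) (t : ι → Fin n → k) :
    gform d s t = gpoly s (fun i l => X l ^ d i) t := by
  funext i
  simp [gform, gpoly]

theorem gform_isHomogeneous (d : ι → ℕ) (s : ι → MvPolynomial (Fin n) κ) (t : ι → Fin n → k)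
    (hs : ∀ i, (s i).IsHomogeneous (d i)) (i : ι) : (gform d s t i).IsHomogeneous (d i) := by
  refine ((hs i).map _).add ?_
  refine IsHomogeneous.sum _ _ _ fun l _ => ?_
  have h1 := (isHomogeneous_C (Fin n) (t i l)).mul ((isHomogeneous_X k l).pow (d i))
  simpa using h1

/-- GENERAL POSITION, homogeneous form: for `P ≠ 0` the gradients at `P` of the forms vanishing
at `P` are linearly independent. -/
theorem gform_gp [Fintype ι] (d : ι → ℕ) (s : ι → MvPolynomial (Fin n) κ) (t : ι → Fin n → k)
    (ht : ∀ g : ι → Fin n → k, ∃ D : Derivation κ k k, ∀ i l, D (t i l) = g i l)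
    (P : Fin n → k) (hP : P ≠ 0) :
    LinearIndependent k
      (fun i : {i : ι // eval P (gform d s t i) = 0} =>
        fun l : Fin n => eval P (pderiv l (gform d s t i.1))) := by
  obtain ⟨l0, hl0⟩ : ∃ l, P l ≠ 0 := by
    by_contra h
    push Not at h
    exact hP (funext h)
  rw [gform_eq_gpoly]
  refine gpoly_gp s _ t ht P fun i => ⟨l0, ?_⟩
  simp only [map_pow, map_X, eval_X]
  exact pow_ne_zero _ hl0

/-! ### Charts -/

/-- dehomogenisation in the chart `x_a ≠ 0` -/
def dehom {R : Type} [CommRing R] (a : Fin (n + 1)) :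
    MvPolynomial (Fin (n + 1)) R →ₐ[R] MvPolynomial (Fin n) R :=
  aeval (Fin.insertNth a 1 (fun j => X j) : Fin (n + 1) → MvPolynomial (Fin n) R)

theorem dehom_map (a : Fin (n + 1)) (p : MvPolynomial (Fin (n + 1)) κ) :
    dehom a (map (algebraMap κ k) p) = map (algebraMap κ k) (dehom a p) := by
  induction p using MvPolynomial.induction_on with
  | C c => simp [dehom]
  | add p q hp hq => simp only [map_add, hp, hq]
  | mul_X p l hp =>
    rw [map_mul, map_mul, hp, map_mul, map_mul, map_X]
    congr 1
    simp only [dehom, aeval_X]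
    refine Fin.succAboveCases a ?_ (fun j => ?_) l
    · simp
    · simp

/-- GENERAL POSITION, affine form: in every chart, for every point `P`, the gradients at `P` of the
dehomogenised forms which vanish at `P` are linearly independent. -/
theorem dehom_gform_gp [Fintype ι] (d : ι → ℕ) (s : ι → MvPolynomial (Fin (n + 1)) κ)
    (t : ι → Fin (n + 1) → k)
    (ht : ∀ g : ι → Fin (n + 1) → k, ∃ D : Derivation κ k k, ∀ i l, D (t i l) = g i l)
    (a : Fin (n + 1)) (P : Fin n → k) :
    LinearIndependent k
      (fun i : {i : ι // eval P (dehom a (gform d s t i)) = 0} =>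
        fun l : Fin n => eval P (pderiv l (dehom a (gform d s t i.1)))) := by
  have h1 : ∀ i, dehom a (gform d s t i)
      = gpoly (fun i => dehom a (s i)) (fun i l => dehom a (X l ^ d i)) t i := by
    intro i
    rw [gform, gpoly, map_add, dehom_map, map_sum]
    congr 1
    refine Finset.sum_congr rfl fun l _ => ?_
    rw [map_mul, ← dehom_map, map_pow (map (algebraMap κ k)), map_X]
    congr 1
    simp [dehom]
  have h2 := gpoly_gp (fun i => dehom a (s i)) (fun i l => dehom a (X l ^ d i)) t ht P
    (fun i => ⟨a, by simp [dehom]⟩)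
  have h3 : (fun i => dehom a (gform d s t i))
      = gpoly (fun i => dehom a (s i)) (fun i l => dehom a (X l ^ d i)) t := funext h1
  have h4 : ∀ G : ι → MvPolynomial (Fin n) k,
      G = gpoly (fun i => dehom a (s i)) (fun i l => dehom a (X l ^ d i)) t →
      LinearIndependent k (fun i : {i : ι // eval P (G i) = 0} =>
        fun l : Fin n => eval P (pderiv l (G i.1))) := by
    rintro G rfl
    exact h2
  exact h4 _ h3

end GP

/-! ## The place -/

section Place

/-- the residue field of a valuation ring of an algebraically closed field is algebraically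
closed -/
theorem isAlgClosed_residueField {k : Type} [Field k] [IsAlgClosed k] (V : ValuationSubring k) :
    IsAlgClosed (IsLocalRing.ResidueField V) := by
  refine IsAlgClosed.of_exists_root _ fun p hpm hpi => ?_
  have hsurj : Function.Surjective (IsLocalRing.residue V) := IsLocalRing.residue_surjective
  have hlift : p ∈ Polynomial.lifts (IsLocalRing.residue V) := by
    rw [Polynomial.lifts_iff_coeff_lifts]
    intro m
    obtain ⟨a, ha⟩ := hsurj (p.coeff m)
    exact ⟨a, ha⟩
  obtain ⟨q, hq1, hq2, hq3⟩ := Polynomial.lifts_and_degree_eq_and_monic hlift hpm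
  have hdeg : (q.map (algebraMap V k)).degree ≠ 0 := by
    rw [hq3.degree_map, hq2]
    exact (Polynomial.degree_pos_of_irreducible hpi).ne'
  obtain ⟨x, hx⟩ := IsAlgClosed.exists_root (q.map (algebraMap V k)) hdeg
  have hint : IsIntegral V x := ⟨q, hq3, by
    rw [Polynomial.IsRoot, Polynomial.eval_map] at hx; exact hx⟩
  obtain ⟨y, hy⟩ := IsIntegrallyClosed.isIntegral_iff.1 hint
  refine ⟨IsLocalRing.residue V y, ?_⟩
  have h1 : q.eval y = 0 := by
    have h2 : algebraMap V k (q.eval y) = 0 := by
      rw [← Polynomial.eval₂_at_apply, hy, ← Polynomial.eval_map]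
      exact hx
    exact (IsFractionRing.injective V k) (by rw [h2, map_zero])
  rw [← hq1, Polynomial.eval_map, Polynomial.eval₂_at_apply, h1, map_zero]

variable (κ : Type) [Field κ] [CharZero κ] (σ : Type)

/-- THE PLACE `t = 0`: a valuation ring of `k` which contains `κ` and whose maximal ideal contains
all the parameters -/
theorem exists_place :
    ∃ (V : ValuationSubring (GK κ σ)) (φ : κ →+* V) (m : σ → V),
      (∀ a : κ, ((φ a : V) : GK κ σ) = algebraMap κ (GK κ σ) a) ∧
      (∀ s : σ, ((m s : V) : GK κ σ) = tt κ σ s) ∧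
      (∀ s : σ, IsLocalRing.residue V (m s) = 0) := by
  classical
  let R := MvPolynomial σ κ
  let P : Ideal R := RingHom.ker (MvPolynomial.constantCoeff (R := κ) (σ := σ))
  haveI hP : P.IsPrime := RingHom.ker_isPrime _
  have hinj : Function.Injective (algebraMap R (GK κ σ)) := by
    rw [IsScalarTower.algebraMap_eq R (FractionRing R) (GK κ σ)]
    exact (algebraMap (FractionRing R) (GK κ σ)).injective.comp
      (IsFractionRing.injective R (FractionRing R))
  have hunit : ∀ y : P.primeCompl, IsUnit (algebraMap R (GK κ σ) y) := by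
    intro y
    refine IsUnit.mk0 _ fun h => ?_
    have : (y : R) = 0 := hinj (by rw [h, map_zero])
    exact y.2 (by rw [this]; exact P.zero_mem)
  let f : Localization.AtPrime P →+* GK κ σ :=
    IsLocalization.lift (M := P.primeCompl) (S := Localization.AtPrime P) hunit
  have hf : ∀ r : R, f (algebraMap R _ r) = algebraMap R (GK κ σ) r := fun r =>
    IsLocalization.lift_eq hunit r
  obtain ⟨V, hV1, hV2⟩ := LocalSubring.exists_le_valuationSubring (LocalSubring.range f)
  have hmem : ∀ r : R, algebraMap R (GK κ σ) r ∈ V := by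
    intro r
    refine hV1 ?_
    change _ ∈ f.range
    exact ⟨_, hf r⟩
  have hC : ∀ a : κ, algebraMap κ (GK κ σ) a = algebraMap R (GK κ σ) (C a) := by
    intro a
    rw [IsScalarTower.algebraMap_apply κ R (GK κ σ)]
    rfl
  let ψ : R →+* V := (algebraMap R (GK κ σ)).codRestrict V.toSubring hmem
  refine ⟨V, ψ.comp C, fun s => ψ (X s), fun a => (hC a).symm, fun s => rfl, fun s => ?_⟩
  rw [IsLocalRing.residue_eq_zero_iff, IsLocalRing.mem_maximalIdeal, mem_nonunits_iff]
  intro hu
  have hmem' : algebraMap R (GK κ σ) (X s) ∈ (LocalSubring.range f).toSubring := by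
    change _ ∈ f.range
    exact ⟨_, hf (X s)⟩
  have hu' : IsUnit (⟨algebraMap R (GK κ σ) (X s), hmem'⟩ : (LocalSubring.range f).toSubring) :=
    hV2.map_nonunit _ hu
  obtain ⟨y, hy⟩ := hu'.exists_right_inv
  obtain ⟨z, hz⟩ : ∃ z, f z = y := by
    have := y.2
    change _ ∈ f.range at this
    obtain ⟨z, hz⟩ := this
    exact ⟨z, hz⟩
  have h1 : f (1 - algebraMap R _ (X s) * z) = 0 := by
    rw [map_sub, map_one, map_mul, hf, hz]
    have h2 := congrArg Subtype.val hy
    have h3 : algebraMap R (GK κ σ) (X s) * (y : GK κ σ) = 1 := h2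
    rw [h3, sub_self]
  have h4 : IsUnit (1 - algebraMap R (Localization.AtPrime P) (X s) * z) := by
    have h5 : algebraMap R (Localization.AtPrime P) (X s) * z
        ∈ IsLocalRing.maximalIdeal (Localization.AtPrime P) := by
      refine Ideal.mul_mem_right _ _ ?_
      rw [IsLocalization.AtPrime.to_map_mem_maximal_iff (Localization.AtPrime P) P]
      change MvPolynomial.constantCoeff (X s) = 0
      simp
    by_contra hcon
    have h6 : (1 : Localization.AtPrime P) ∈ IsLocalRing.maximalIdeal (Localization.AtPrime P) := by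
      have := Ideal.add_mem _ ((IsLocalRing.mem_maximalIdeal _).2 hcon) h5
      rwa [sub_add_cancel] at this
    exact (Ideal.ne_top_iff_one _).1 (IsLocalRing.maximalIdeal.isMaximal _).ne_top h6
  have h7 := h4.map f
  rw [h1] at h7
  exact not_isUnit_zero h7

end Place

end

end Pool.Agent.PI.F1
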